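import Pool.Agent.Helper33.HM.Tools

/-!
# HM-M2: the sentence has the value `⊤` (with the other modules as hypotheses)
-/

set_option autoImplicit false

namespace Pool.Agent.Helper33.HM

universe u

section

variable {B : Type u} [CompleteBooleanAlgebra B]

theorem h71_iffV_self (a : B) : iffV a a = ⊤ := by
  simp [iffV]

theorem h71_pruned {T : List Bool → B} (h : IsPr T) : pruned T = ⊤ := by
  refine eq_top_iff.2 (le_iInf fun σ => ?_)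
  rw [← h σ, h71_iffV_self]

theorem h71_memV_sub (x : ℕ → B) (Z H : List Bool → B) :
    memV x Z ⊓ subV Z H ≤ memV x H := by
  refine le_iInf fun σ => ?_
  rw [le_himp_iff]
  have h1 : memV x Z ≤ cyl x σ ⇨ Z σ := iInf_le _ σ
  have h2 : subV Z H ≤ Z σ ⇨ H σ := iInf_le _ σ
  calc memV x Z ⊓ subV Z H ⊓ cyl x σ ≤ (cyl x σ ⇨ Z σ) ⊓ (Z σ ⇨ H σ) ⊓ cyl x σ :=
        inf_le_inf_right _ (inf_le_inf h1 h2)
    _ = (cyl x σ ⇨ Z σ) ⊓ cyl x σ ⊓ (Z σ ⇨ H σ) := by ac_rfl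
    _ ≤ Z σ ⊓ (Z σ ⇨ H σ) := inf_le_inf_right _ himp_inf_le
    _ ≤ H σ := inf_himp_le

/-- The last step: names of null closed sets covering `E`, covered by the sequence `H`. -/
theorem h71_nullCov (S : Set B) (E : (ℕ → B) → B)
    (hmain : ∀ x : ℕ → B, E x ≤ ⨆ Z : List Bool → B,
      ⨆ _ : (∀ σ, Z σ ∈ S) ∧ IsPr Z ∧ nullV Z = ⊤, memV x Z)
    (hnull : ∃ H : ℕ → List Bool → B, (∀ m, IsPr (H m)) ∧ (∀ m, nullV (H m) = ⊤) ∧
      ∀ Z : List Bool → B, (∀ σ, Z σ ∈ S) → IsPr Z → nullV Z = ⊤ →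
        ⨆ m, subV Z (H m) = ⊤) :
    nullCov E = ⊤ := by
  obtain ⟨H, h1, h2, h3⟩ := hnull
  have hcov : covV E H = ⊤ := by
    refine eq_top_iff.2 (le_iInf fun x => ?_)
    rw [le_himp_iff, top_inf_eq]
    refine (hmain x).trans (iSup_le fun Z => iSup_le fun hZ => ?_)
    have h4 := h3 Z hZ.1 hZ.2.1 hZ.2.2
    calc memV x Z = memV x Z ⊓ ⨆ m, subV Z (H m) := by rw [h4, inf_top_eq]
      _ = ⨆ m, memV x Z ⊓ subV Z (H m) := inf_iSup_eq _ _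
      _ ≤ ⨆ m, memV x (H m) := iSup_mono fun m => h71_memV_sub x Z (H m)
  refine eq_top_iff.2 ?_
  have h5 : ((⨅ k : ℕ, pruned (H k) ⊓ nullV (H k)) ⊓ covV E H) = ⊤ := by
    rw [hcov, inf_top_eq]
    refine eq_top_iff.2 (le_iInf fun k => ?_)
    rw [h71_pruned (h1 k), h2 k, inf_top_eq]
  rw [← h5]
  exact le_iSup (fun F : ℕ → List Bool → B =>
    (⨅ k : ℕ, pruned (F k) ⊓ nullV (F k)) ⊓ covV E F) H

theorem h71_inner_top {E : (ℕ → B) → B} (h : fatPM E = ⊤) {P : ℕ → List Bool → B}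
    (hP : ∀ n, fat (P n) = ⊤) :
    (⨆ F : ℕ → List Bool → B,
      (⨅ k : ℕ, pruned (F k)) ⊓ covV E F ⊓ ⨅ k : ℕ, ⨅ n : ℕ, nwdV (F k) (P n)) = ⊤ := by
  have h1 : fatPM E ≤ (⨅ n : ℕ, fat (P n)) ⇨
    ⨆ F : ℕ → List Bool → B,
      (⨅ k : ℕ, pruned (F k)) ⊓ covV E F ⊓ ⨅ k : ℕ, ⨅ n : ℕ, nwdV (F k) (P n) := iInf_le _ P
  rw [h, le_himp_iff, top_inf_eq] at h1
  refine eq_top_iff.2 (le_trans ?_ h1)
  exact le_iInf fun n => (hP n).ge

theorem h71_nwdV_bot (P : List Bool → B) : nwdV (fun _ => (⊥ : B)) P = ⊤ := by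
  refine eq_top_iff.2 (le_iInf fun σ => ?_)
  rw [le_himp_iff, top_inf_eq]
  refine le_trans ?_ (le_iSup _ σ)
  refine le_trans ?_ (le_iSup _ List.prefix_rfl)
  simp

theorem h71_pruned_bot : pruned (fun _ => (⊥ : B)) = ⊤ := h71_pruned fun σ => by simp

theorem h71_setName {E : (ℕ → B) → B} (hE : IsSetName E) (e : B) :
    IsSetName fun x => E x ⊓ e := by
  intro x y
  rw [← inf_assoc]
  exact inf_le_inf_right _ (hE x y)

theorem h71_covV_mono (E : (ℕ → B) → B) (e : B) (F : ℕ → List Bool → B) :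
    covV E F ≤ covV (fun x => E x ⊓ e) F := by
  refine iInf_mono fun x => ?_
  exact himp_le_himp_right inf_le_left

theorem h71_covV_back (E : (ℕ → B) → B) (e : B) (F : ℕ → List Bool → B) :
    covV (fun x => E x ⊓ e) F ⊓ e ≤ covV E F := by
  refine le_iInf fun x => ?_
  rw [le_himp_iff]
  have h1 : covV (fun x => E x ⊓ e) F ≤ (E x ⊓ e) ⇨ ⨆ k : ℕ, memV x (F k) := iInf_le _ x
  calc covV (fun x => E x ⊓ e) F ⊓ e ⊓ E x
      ≤ ((E x ⊓ e) ⇨ ⨆ k : ℕ, memV x (F k)) ⊓ e ⊓ E x :=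
        inf_le_inf_right _ (inf_le_inf_right _ h1)
    _ = ((E x ⊓ e) ⇨ ⨆ k : ℕ, memV x (F k)) ⊓ (E x ⊓ e) := by ac_rfl
    _ ≤ ⨆ k : ℕ, memV x (F k) := himp_inf_le

theorem h71_covV_compl (E : (ℕ → B) → B) (e : B) (F : ℕ → List Bool → B) :
    eᶜ ≤ covV (fun x => E x ⊓ e) F := by
  refine le_iInf fun x => ?_
  rw [le_himp_iff]
  have h1 : eᶜ ⊓ (E x ⊓ e) = ⊥ := by
    rw [inf_left_comm, compl_inf_eq_bot, inf_bot_eq]
  rw [h1]
  exact bot_le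

theorem h71_fatPM_cut (E : (ℕ → B) → B) : fatPM (fun x => E x ⊓ fatPM E) = ⊤ := by
  refine eq_top_iff.2 (le_iInf fun P => ?_)
  rw [le_himp_iff, top_inf_eq]
  set e := fatPM E with he
  set p := ⨅ n : ℕ, fat (P n) with hp
  have h1 : p ⊓ e ≤ ⨆ F : ℕ → List Bool → B,
      (⨅ k : ℕ, pruned (F k)) ⊓ covV (fun x => E x ⊓ e) F ⊓
        ⨅ k : ℕ, ⨅ n : ℕ, nwdV (F k) (P n) := by
    have h2 : e ≤ p ⇨ ⨆ F : ℕ → List Bool → B,
      (⨅ k : ℕ, pruned (F k)) ⊓ covV E F ⊓ ⨅ k : ℕ, ⨅ n : ℕ, nwdV (F k) (P n) := iInf_le _ P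
    rw [le_himp_iff] at h2
    rw [inf_comm]
    refine h2.trans (iSup_mono fun F => ?_)
    exact inf_le_inf_right _ (inf_le_inf_left _ (h71_covV_mono E e F))
  have h3 : p ⊓ eᶜ ≤ ⨆ F : ℕ → List Bool → B,
      (⨅ k : ℕ, pruned (F k)) ⊓ covV (fun x => E x ⊓ e) F ⊓
        ⨅ k : ℕ, ⨅ n : ℕ, nwdV (F k) (P n) := by
    refine le_trans ?_ (le_iSup (fun F : ℕ → List Bool → B =>
      (⨅ k : ℕ, pruned (F k)) ⊓ covV (fun x => E x ⊓ e) F ⊓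
        ⨅ k : ℕ, ⨅ n : ℕ, nwdV (F k) (P n)) (fun _ _ => ⊥))
    refine le_inf (le_inf ?_ ?_) ?_
    · exact le_iInf fun k => le_trans le_top h71_pruned_bot.ge
    · exact inf_le_right.trans (h71_covV_compl E e _)
    · exact le_iInf fun k => le_iInf fun n => le_trans le_top (h71_nwdV_bot (P n)).ge
  calc p = (p ⊓ e) ⊔ (p ⊓ eᶜ) := by rw [← inf_sup_left, sup_compl_eq_top, inf_top_eq]
    _ ≤ _ := sup_le h1 h3

theorem h71_nullCov_back (E : (ℕ → B) → B) (e : B) :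
    nullCov (fun x => E x ⊓ e) ⊓ e ≤ nullCov E := by
  unfold nullCov
  rw [iSup_inf_eq]
  refine iSup_mono fun F => ?_
  rw [inf_assoc]
  exact inf_le_inf_left _ (h71_covV_back E e F)

theorem h71_val_eq_top (h : ∀ E : (ℕ → B) → B, IsSetName E → fatPM E = ⊤ → nullCov E = ⊤) :
    Val B = ⊤ := by
  refine eq_top_iff.2 (le_iInf fun E => le_iInf fun hE => ?_)
  rw [le_himp_iff, top_inf_eq]
  have h1 := h _ (h71_setName hE (fatPM E)) (h71_fatPM_cut E)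
  have h2 := h71_nullCov_back E (fatPM E)
  rwa [h1, top_inf_eq] at h2

end

/-- The assembly with the other modules as hypotheses. -/
theorem h71_core {B : Type 1} [CompleteBooleanAlgebra B] (I : HIter B)
    (hmax : ∀ (E : (ℕ → B) → B) (P : ℕ → List Bool → B),
      (⨆ F : ℕ → List Bool → B,
        (⨅ k : ℕ, pruned (F k)) ⊓ covV E F ⊓ ⨅ k : ℕ, ⨅ n : ℕ, nwdV (F k) (P n)) = ⊤ →
      ∃ F : ℕ → List Bool → B, (∀ k, IsPr (F k)) ∧ covV E F = ⊤ ∧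
        ∀ k n, nwdV (F k) (P n) = ⊤)
    (hclosing : ∀ w : (ℕ → List Bool → B) → ℕ → List Bool → B,
      ∃ α, ∀ P : ℕ → List Bool → B, (∀ n σ, P n σ ∈ I.S α) → ∀ n σ, w P n σ ∈ I.S α)
    (hmain : ∀ (E : (ℕ → B) → B), IsSetName E → ∀ (α : Ordinal.{0}),
      (∀ P : ℕ → List Bool → B, (∀ n σ, P n σ ∈ I.S α) → (∀ n, fat (P n) = ⊤) →
        ∃ F : ℕ → List Bool → B, (∀ k σ, F k σ ∈ I.S α) ∧ (∀ k, IsPr (F k)) ∧ covV E F = ⊤ ∧
          ∀ k n, nwdV (F k) (P n) = ⊤) → ∀ x : ℕ → B,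
      E x ≤ ⨆ Z : List Bool → B, ⨆ _ : (∀ σ, Z σ ∈ I.S α) ∧ IsPr Z ∧ nullV Z = ⊤, memV x Z)
    (hnull : ∀ α : Ordinal.{0},
      ∃ H : ℕ → List Bool → B, (∀ m, IsPr (H m)) ∧ (∀ m, nullV (H m) = ⊤) ∧
        ∀ Z : List Bool → B, (∀ σ, Z σ ∈ I.S α) → IsPr Z → nullV Z = ⊤ →
          ⨆ m, subV Z (H m) = ⊤)
    (E : (ℕ → B) → B) (hE : IsSetName E) (h : fatPM E = ⊤) : nullCov E = ⊤ := by
  classical
  have hex : ∀ P : ℕ → List Bool → B, (∀ n, fat (P n) = ⊤) →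
      ∃ F : ℕ → List Bool → B, (∀ k, IsPr (F k)) ∧ covV E F = ⊤ ∧
        ∀ k n, nwdV (F k) (P n) = ⊤ :=
    fun P hP => hmax E P (h71_inner_top h hP)
  let w : (ℕ → List Bool → B) → ℕ → List Bool → B := fun P =>
    if hP : ∀ n, fat (P n) = ⊤ then (hex P hP).choose else fun _ _ => ⊥
  obtain ⟨α, hα⟩ := hclosing w
  refine h71_nullCov (I.S α) E (hmain E hE α ?_) (hnull α)
  intro P hP hfat
  have hw : w P = (hex P hfat).choose := dif_pos hfat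
  refine ⟨w P, hα P hP, ?_⟩
  rw [hw]
  exact (hex P hfat).choose_spec

end Pool.Agent.Helper33.HM
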