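import Pool.Agent.Helper71.HM.ValTopCore
import Pool.Agent.Helper53.HM.MaxPrinciple
import Pool.Agent.Helper8.HM.Reals
import Pool.Agent.Helper12.HM.MainCore
import Pool.Agent.Helper5.HM.NullCover

/-!
# HM-M2: the sentence has the value `⊤`
-/

set_option autoImplicit false

namespace Pool.Agent.Helper33.HM

variable {B : Type 1} [CompleteBooleanAlgebra B]

theorem nullCov_of_fatPM (I : HIter B) (E : (ℕ → B) → B) (hE : IsSetName E) (h : fatPM E = ⊤) :
    nullCov E = ⊤ :=
  h71_core I (fun E P => max_principle I.ccc E P) (closing I)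
    (fun E hE α hw x => main_core I E hE α hw x) (null_cover I) E hE h

theorem val_eq_top (I : HIter B) : Val B = ⊤ :=
  h71_val_eq_top fun E hE h => nullCov_of_fatPM I E hE h

end Pool.Agent.Helper33.HM
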